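import Mathlib

namespace Pool.Agent.Results.MP_2d934b_pr.Yes

open Set

/-- The BKR product. -/
def box {ι S : Type} (A B : Set (ι → S)) : Set (ι → S) := {x | ∃ K L : Set ι, Disjoint K L ∧
  {y | ∀ i ∈ K, y i = x i} ⊆ A ∧ {y | ∀ i ∈ L, y i = x i} ⊆ B}

/-- The value of a bracketing of a power of `A`. -/
def ev {ι S : Type} (A : Set (ι → S)) : BinaryTree Unit → Set (ι → S)
  | .nil => A
  | .node _ l r => box (ev A l) (ev A r)

/-- Equality of bracketings up to swapping the two subtrees at some internal nodes. -/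
def Eqv : BinaryTree Unit → BinaryTree Unit → Prop
  | .nil, .nil => True
  | .node _ l r, .node _ l' r' => (Eqv l l' ∧ Eqv r r') ∨ (Eqv l r' ∧ Eqv r l')
  | _, _ => False

section
variable {ι S : Type}

lemma comm (A B : Set (ι → S)) : box A B = box B A := by
  ext; exact ⟨fun ⟨K, L, h, a, b⟩ => ⟨L, K, h.symm, b, a⟩, fun ⟨K, L, h, a, b⟩ => ⟨L, K, h.symm, b, a⟩⟩

lemma bu (A : Set (ι → S)) : box A univ = A := by
  ext x
  exact ⟨fun ⟨_, _, _, a, _⟩ => a fun _ _ => rfl, fun h => ⟨univ, ∅, by simp, fun y hy => by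
    rwa [show y = x from funext fun i => hy i trivial], subset_univ _⟩⟩

lemma bmono {A B A' B' : Set (ι → S)} (h1 : A ⊆ A') (h2 : B ⊆ B') : box A B ⊆ box A' B' :=
  fun _ ⟨K, L, h, a, b⟩ => ⟨K, L, h, a.trans h1, b.trans h2⟩

lemma bl {A B : Set (ι → S)} : box A B ⊆ A := fun _ ⟨_, _, _, a, _⟩ => a fun _ _ => rfl

lemma br {A B : Set (ι → S)} : box A B ⊆ B := fun _ ⟨_, _, _, _, b⟩ => b fun _ _ => rfl

lemma ev_equiv {κ : Type} (e : κ ≃ ι) (A : Set (ι → S)) (t : BinaryTree Unit) :
    ev {x : κ → S | x ∘ e.symm ∈ A} t = {x | x ∘ e.symm ∈ ev A t} := by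
  induction t with
  | nil => rfl
  | node _ l r a b =>
    rw [ev, ev, a, b]
    ext x
    constructor
    · rintro ⟨K, L, h, p, q⟩
      refine ⟨e.symm ⁻¹' K, e.symm ⁻¹' L, h.preimage _, fun y hy => ?_, fun y hy => ?_⟩
      · have := p (a := y ∘ e) fun i hi => by simpa using hy (e i) (by simpa using hi)
        simpa [Function.comp_assoc] using this
      · have := q (a := y ∘ e) fun i hi => by simpa using hy (e i) (by simpa using hi)
        simpa [Function.comp_assoc] using this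
    · rintro ⟨K, L, h, p, q⟩
      exact ⟨e ⁻¹' K, e ⁻¹' L, h.preimage _, fun y hy => p fun i hi => hy _ (by simpa using hi),
        fun y hy => q fun i hi => hy _ (by simpa using hi)⟩

def lift {Γ : Type} (g : Γ) (E : Set (ι → S)) : Set (Γ × ι → S) := {z | (fun b => z (g, b)) ∈ E}

lemma box_lift {Γ : Type} (g : Γ) (E F : Set (ι → S)) : box (lift g E) (lift g F) ⊆ lift g (box E F) := by
  classical
  rintro z ⟨K, L, h, p, q⟩
  have key : ∀ (K : Set (Γ × ι)) (E : Set (ι → S)), {y | ∀ i ∈ K, y i = z i} ⊆ lift g E →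
      {y : ι → S | ∀ i ∈ (fun b => (g, b)) ⁻¹' K, y i = z (g, i)} ⊆ E := by
    intro K E p w hw
    have := p (a := fun c => if c.1 = g then w c.2 else z c) fun c hc => by
      obtain ⟨c1, c2⟩ := c
      by_cases e : c1 = g
      · subst e; simpa using hw c2 hc
      · simp [e]
    simpa [lift] using this
  exact ⟨_, _, h.preimage _, key K E p, key L F q⟩

lemma box_prod {Γ : Type} (E F : Γ → Set (ι → S)) :
    (⋂ g, lift g (box (E g) (F g))) ⊆ box (⋂ g, lift g (E g)) (⋂ g, lift g (F g)) := by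
  intro z hz
  choose K L h p q using fun g => mem_iInter.1 hz g
  refine ⟨{c | c.2 ∈ K c.1}, {c | c.2 ∈ L c.1}, disjoint_left.2 fun c a b => disjoint_left.1 (h _) a b,
    fun y hy => mem_iInter.2 fun g => p g fun i hi => hy (g, i) hi,
    fun y hy => mem_iInter.2 fun g => q g fun i hi => hy (g, i) hi⟩

end

def D {β : Type} : Fin 4 → Set (Fin 2 → Option β) :=
  ![{x | x 0 = none ∨ x 1 = none}, {x | x 0 = none ∨ x 1 ≠ none}, {x | x 1 = none}, univ]

lemma g1 {β : Type} : (fun _ => none : Fin 2 → Option β) ∈ box (box (D 0) (D 1)) (D 2) := by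
  refine ⟨{0}, {1}, by simp, fun y hy => ?_, fun y hy => hy 1 rfl⟩
  by_cases e : y 1 = none
  · exact ⟨{1}, {0}, by simp, fun z hz => .inr ((hz 1 rfl).trans e),
      fun z hz => .inl ((hz 0 rfl).trans (hy 0 rfl))⟩
  · exact ⟨{0}, {1}, by simp, fun z hz => .inl ((hz 0 rfl).trans (hy 0 rfl)),
      fun z hz => .inr ((hz 1 rfl).trans_ne e)⟩

lemma g2 {β : Type} (c : β) : (fun _ => none : Fin 2 → Option β) ∉ box (box (D 0) (D 2)) (D 1) := by
  rintro ⟨K, L, d, a, b⟩
  have m : ∀ y ∈ box (D 0 : Set (Fin 2 → Option β)) (D 2), y 0 = none ∧ y 1 = none := by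
    rintro y ⟨K, L, d, a, b⟩
    refine ⟨?_, b fun _ _ => rfl⟩
    have h1 : 1 ∈ L := by
      by_contra h
      have := b (a := Function.update y 1 (some c)) fun i hi =>
        Function.update_of_ne (ne_of_mem_of_not_mem hi h) _ _
      simp [D] at this
    have := a (a := Function.update y 1 (some c)) fun i hi =>
      Function.update_of_ne (ne_of_mem_of_not_mem hi (disjoint_right.1 d h1)) _ _
    simpa [D] using this
  have l : 0 ∈ K := by
    by_contra hi
    have := m (Function.update (fun _ => none) 0 (some c))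
      (a fun j hj => Function.update_of_ne (ne_of_mem_of_not_mem hj hi) _ _)
    simp at this
  have := b (a := Function.update (fun _ => none) 0 (some c)) fun i hi =>
    Function.update_of_ne (ne_of_mem_of_not_mem hi (disjoint_left.1 d l)) _ _
  simp [D] at this

inductive LT (α : Type) | leaf (a : α) | node (l r : LT α)

variable {α : Type} [DecidableEq α]

def LT.set : LT α → Finset α
  | .leaf a => {a}
  | .node l r => l.set ∪ r.set

def LT.ok : LT α → Prop
  | .leaf _ => True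
  | .node l r => l.ok ∧ r.ok ∧ Disjoint l.set r.set

def LT.shape : LT α → BinaryTree Unit
  | .leaf _ => .nil
  | .node l r => .node () l.shape r.shape

def LT.R (i j k : α) : LT α → Prop
  | .leaf _ => False
  | .node l r => (i ∈ l.set ∧ j ∈ l.set ∧ k ∈ r.set) ∨ (i ∈ r.set ∧ j ∈ r.set ∧ k ∈ l.set) ∨
      l.R i j k ∨ r.R i j k

def LT.val {ι S : Type} (B : α → Set (ι → S)) : LT α → Set (ι → S)
  | .leaf a => B a
  | .node l r => box (l.val B) (r.val B)

lemma LT.ne (u : LT α) : u.set.Nonempty := by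
  induction u with
  | leaf a => simp [LT.set]
  | node l r a _ => exact a.mono Finset.subset_union_left

lemma exl (t : BinaryTree Unit) : ∀ T : Finset α, T.card = t.numLeaves →
    ∃ u : LT α, u.ok ∧ u.set = T ∧ u.shape = t := by
  induction t with
  | nil =>
    intro T h
    obtain ⟨a, rfl⟩ := Finset.card_eq_one.1 h
    exact ⟨.leaf a, trivial, rfl, rfl⟩
  | node _ l r a b =>
    intro T h
    simp only [BinaryTree.numLeaves] at h
    obtain ⟨T1, h1, h2⟩ := Finset.exists_subset_card_eq (s := T) (n := l.numLeaves) (by omega)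
    obtain ⟨u, u1, u2, u3⟩ := a T1 h2
    obtain ⟨v, v1, v2, v3⟩ := b (T \ T1) (by rw [Finset.card_sdiff_of_subset h1]; omega)
    refine ⟨.node u v, ⟨u1, v1, by rw [u2, v2]; exact Finset.disjoint_sdiff⟩, ?_, by
      simp [LT.shape, u3, v3]⟩
    rw [LT.set, u2, v2, Finset.union_sdiff_of_subset h1]

section
variable {ι S : Type} (B : α → Set (ι → S))

lemma e0 (u : LT α) (h : ∀ m ∈ u.set, B m = univ) : u.val B = univ := by
  induction u with
  | leaf a => exact h a (by simp [LT.set])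
  | node l r a b =>
    rw [LT.val, a fun m hm => h m (by simp [LT.set, hm]), b fun m hm => h m (by simp [LT.set, hm]), bu]

lemma e1 (u : LT α) (hu : u.ok) {i : α} (hi : i ∈ u.set) (h : ∀ m ∈ u.set, m ≠ i → B m = univ) :
    u.val B = B i := by
  induction u with
  | leaf a => rw [show i = a by simpa [LT.set] using hi]; rfl
  | node l r a b =>
    have d := Finset.disjoint_left.1 hu.2.2
    rcases Finset.mem_union.1 hi with hi | hi
    · rw [LT.val, a hu.1 hi fun m hm => h m (by simp [LT.set, hm]),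
        e0 B r fun m hm => h m (by simp [LT.set, hm]) (fun e => d hi (e ▸ hm)), bu]
    · rw [LT.val, b hu.2.1 hi fun m hm => h m (by simp [LT.set, hm]),
        e0 B l fun m hm => h m (by simp [LT.set, hm]) (fun e => d (e ▸ hm) hi), comm, bu]

lemma e2 (u : LT α) (hu : u.ok) {i j : α} (hi : i ∈ u.set) (hj : j ∈ u.set) (hij : i ≠ j)
    (h : ∀ m ∈ u.set, m ≠ i → m ≠ j → B m = univ) : u.val B = box (B i) (B j) := by
  induction u with
  | leaf a => simp only [LT.set, Finset.mem_singleton] at hi hj; exact absurd (hi.trans hj.symm) hij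
  | node l r a b =>
    have d := Finset.disjoint_left.1 hu.2.2
    have hl : ∀ m ∈ l.set, m ≠ i → m ≠ j → B m = univ := fun m hm => h m (by simp [LT.set, hm])
    have hr : ∀ m ∈ r.set, m ≠ i → m ≠ j → B m = univ := fun m hm => h m (by simp [LT.set, hm])
    rcases Finset.mem_union.1 hi with hi | hi <;> rcases Finset.mem_union.1 hj with hj | hj
    · rw [LT.val, a hu.1 hi hj hl,
        e0 B r fun m hm => hr m hm (fun e => d hi (e ▸ hm)) (fun e => d hj (e ▸ hm)), bu]
    · rw [LT.val, e1 B l hu.1 hi fun m hm e => hl m hm e (fun e => d (e ▸ hm) hj),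
        e1 B r hu.2.1 hj fun m hm e => hr m hm (fun e => d hi (e ▸ hm)) e]
    · rw [LT.val, e1 B l hu.1 hj fun m hm e => hl m hm (fun e => d (e ▸ hm) hi) e,
        e1 B r hu.2.1 hi fun m hm e => hr m hm e (fun e => d hj (e ▸ hm)), comm]
    · rw [LT.val, b hu.2.1 hi hj hr,
        e0 B l fun m hm => hl m hm (fun e => d (e ▸ hm) hi) (fun e => d (e ▸ hm) hj), comm, bu]

omit B in
lemma R_mem (u : LT α) (hu : u.ok) {i j k : α} (h : u.R i j k) :
    i ∈ u.set ∧ j ∈ u.set ∧ k ∈ u.set ∧ k ≠ i ∧ k ≠ j := by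
  induction u with
  | leaf a => exact h.elim
  | node l r a b =>
    have d := Finset.disjoint_left.1 hu.2.2
    simp only [LT.set, Finset.mem_union]
    rcases h with h | h | h | h
    · exact ⟨.inl h.1, .inl h.2.1, .inr h.2.2, fun e => d h.1 (e ▸ h.2.2), fun e => d h.2.1 (e ▸ h.2.2)⟩
    · exact ⟨.inr h.1, .inr h.2.1, .inl h.2.2, fun e => d (e ▸ h.2.2) h.1, fun e => d (e ▸ h.2.2) h.2.1⟩
    · have := a hu.1 h; tauto
    · have := b hu.2.1 h; tauto

lemma e3 (u : LT α) (hu : u.ok) {i j k : α} (hR : u.R i j k) (hij : i ≠ j)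
    (h : ∀ m ∈ u.set, m ≠ i → m ≠ j → m ≠ k → B m = univ) : u.val B = box (box (B i) (B j)) (B k) := by
  induction u with
  | leaf a => exact hR.elim
  | node l r a b =>
    have d := Finset.disjoint_left.1 hu.2.2
    have hl : ∀ m ∈ l.set, m ≠ i → m ≠ j → m ≠ k → B m = univ := fun m hm => h m (by simp [LT.set, hm])
    have hr : ∀ m ∈ r.set, m ≠ i → m ≠ j → m ≠ k → B m = univ := fun m hm => h m (by simp [LT.set, hm])
    rcases hR with ⟨hi, hj, hk⟩ | ⟨hi, hj, hk⟩ | hR | hR
    · rw [LT.val, e2 B l hu.1 hi hj hij fun m hm p q => hl m hm p q (fun e => d (e ▸ hm) hk),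
        e1 B r hu.2.1 hk fun m hm e => hr m hm (fun e => d hi (e ▸ hm)) (fun e => d hj (e ▸ hm)) e]
    · rw [LT.val, e2 B r hu.2.1 hi hj hij fun m hm p q => hr m hm p q (fun e => d hk (e ▸ hm)),
        e1 B l hu.1 hk fun m hm e => hl m hm (fun e => d (e ▸ hm) hi) (fun e => d (e ▸ hm) hj) e, comm]
    · obtain ⟨hi, hj, hk, -⟩ := R_mem l hu.1 hR
      rw [LT.val, a hu.1 hR hl, e0 B r fun m hm => hr m hm (fun e => d hi (e ▸ hm))
        (fun e => d hj (e ▸ hm)) (fun e => d hk (e ▸ hm)), bu]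
    · obtain ⟨hi, hj, hk, -⟩ := R_mem r hu.2.1 hR
      rw [LT.val, b hu.2.1 hR hr, e0 B l fun m hm => hl m hm (fun e => d (e ▸ hm) hi)
        (fun e => d (e ▸ hm) hj) (fun e => d (e ▸ hm) hk), comm, bu]

end

abbrev G (α : Type) := α × α × α
abbrev SS (α : Type) := Option (G α → Fin 4)
abbrev II (α : Type) := α ⊕ (G α × Fin 2)

def AA (α : Type) : Set (II α → SS α) :=
  {y | ∃ m p, y (.inl m) = some p ∧ ∀ g, (fun b => y (.inr (g, b))) ∈ D (p g)}

def cfg (p : α → G α → Fin 4) (T : Finset α) (z : G α × Fin 2 → SS α) : II α → SS α :=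
  Sum.elim (fun m => if m ∈ T then some (p m) else none) z

def Ev (p : α → G α → Fin 4) (s : BinaryTree Unit) (T : Finset α) : Set (G α × Fin 2 → SS α) :=
  {z | cfg p T z ∈ ev (AA α) s}

omit [DecidableEq α] in
lemma up (s : BinaryTree Unit) : ∀ y y' : II α → SS α, (∀ c, y (.inr c) = y' (.inr c)) →
    (∀ m, y (.inl m) = y' (.inl m) ∨ y (.inl m) = none) → y ∈ ev (AA α) s → y' ∈ ev (AA α) s := by
  classical
  induction s with
  | nil =>
    rintro y y' h1 h2 ⟨m, p, hm, hp⟩
    refine ⟨m, p, ?_, fun g => by simpa only [h1] using hp g⟩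
    rcases h2 m with h | h
    · rw [← h, hm]
    · rw [hm] at h; cases h
  | node _ l r a b =>
    rintro x x' h1 h2 ⟨K, L, d, p, q⟩
    have key : ∀ (K : Set (II α)) (y' : II α → SS α), (∀ i ∈ K, y' i = x' i) →
        (∀ c, K.piecewise x y' (.inr c) = y' (.inr c)) ∧
        (∀ m, K.piecewise x y' (.inl m) = y' (.inl m) ∨ K.piecewise x y' (.inl m) = none) := by
      intro K y' hy
      refine ⟨fun c => ?_, fun m => ?_⟩
      · by_cases h : Sum.inr c ∈ K
        · rw [piecewise_eq_of_mem _ _ _ h, hy _ h, h1]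
        · rw [piecewise_eq_of_notMem _ _ _ h]
      · by_cases h : Sum.inl m ∈ K
        · rw [piecewise_eq_of_mem _ _ _ h, hy _ h]; exact h2 m
        · rw [piecewise_eq_of_notMem _ _ _ h]; exact .inl rfl
    exact ⟨K, L, d, fun y' hy => a _ _ (key K y' hy).1 (key K y' hy).2
        (p fun i hi => piecewise_eq_of_mem _ _ _ hi),
      fun y' hy => b _ _ (key L y' hy).1 (key L y' hy).2 (q fun i hi => piecewise_eq_of_mem _ _ _ hi)⟩

variable (p : α → G α → Fin 4)

lemma join (l r : BinaryTree Unit) {T1 T2 : Finset α} (d : Disjoint T1 T2) :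
    box (Ev p l T1) (Ev p r T2) ⊆ Ev p (.node () l r) (T1 ∪ T2) := by
  rintro z ⟨K, L, h, a, b⟩
  have key : ∀ (s : BinaryTree Unit) (T : Finset α) (K : Set (G α × Fin 2)), T ⊆ T1 ∪ T2 →
      {y | ∀ i ∈ K, y i = z i} ⊆ Ev p s T →
      {y | ∀ i ∈ {c : II α | Sum.elim (fun m => m ∈ T) (fun c => c ∈ K) c}, y i = cfg p (T1 ∪ T2) z i} ⊆
        ev (AA α) s := by
    intro s T K hT a y hy
    refine up s (cfg p T fun c => y (.inr c)) y (fun _ => rfl) (fun m => ?_)
      (a fun c hc => hy (.inr c) hc)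
    by_cases hm : m ∈ T
    · left; rw [hy (.inl m) hm]; simp only [cfg, Sum.elim_inl, if_pos hm, if_pos (hT hm)]
    · right; simp [cfg, hm]
  refine ⟨_, _, disjoint_left.2 ?_, key l T1 K Finset.subset_union_left a,
    key r T2 L Finset.subset_union_right b⟩
  rintro (m | c) h1 h2
  · exact Finset.disjoint_left.1 d h1 h2
  · exact disjoint_left.1 h h1 h2

lemma lower (u : LT α) (hu : u.ok) :
    (⋂ g, lift g (u.val fun m => D (p m g))) ⊆ Ev p u.shape u.set := by
  induction u with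
  | leaf a => exact fun z hz => ⟨a, p a, by simp [cfg, LT.set], fun g => mem_iInter.1 hz g⟩
  | node l r a b => exact (box_prod _ _).trans ((bmono (a hu.1) (b hu.2.1)).trans (join p _ _ hu.2.2))

lemma split (l r : BinaryTree Unit) (T : Finset α) {z : G α × Fin 2 → SS α}
    (hz : z ∈ Ev p (.node () l r) T) : ∃ T1 T2 : Finset α, T1 ⊆ T ∧ T2 ⊆ T ∧ Disjoint T1 T2 ∧
      z ∈ box (Ev p l T1) (Ev p r T2) := by
  classical
  obtain ⟨K, L, h, a, b⟩ := hz
  have key : ∀ (s : BinaryTree Unit) (K : Set (II α)), {y | ∀ i ∈ K, y i = cfg p T z i} ⊆ ev (AA α) s →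
      {y | ∀ i ∈ Sum.inr ⁻¹' K, y i = z i} ⊆ Ev p s (T.filter fun m => .inl m ∈ K) := by
    intro s K a y hy
    refine a ?_
    rintro (m | c) hc
    · simp [cfg, hc]
    · exact hy c hc
  exact ⟨_, _, Finset.filter_subset _ _, Finset.filter_subset _ _,
    Finset.disjoint_left.2 fun m h1 h2 => disjoint_left.1 h (Finset.mem_filter.1 h1).2
      (Finset.mem_filter.1 h2).2, _, _, h.preimage _, key l K a, key r L b⟩

lemma cnt (s : BinaryTree Unit) : ∀ (T : Finset α) z, z ∈ Ev p s T → s.numLeaves ≤ T.card := by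
  induction s with
  | nil =>
    rintro T z ⟨m, q, hm, -⟩
    refine Finset.card_pos.2 ⟨m, ?_⟩
    by_contra h
    simp [cfg, h] at hm
  | node _ l r a b =>
    intro T z hz
    obtain ⟨T1, T2, h1, h2, d, hb⟩ := split p l r T hz
    have := Finset.card_le_card (Finset.union_subset h1 h2)
    rw [Finset.card_union_of_disjoint d] at this
    have := a _ _ (bl hb)
    have := b _ _ (br hb)
    simp only [BinaryTree.numLeaves]; omega

lemma split' (l r : BinaryTree Unit) (T : Finset α) {z : G α × Fin 2 → SS α}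
    (hz : z ∈ Ev p (.node () l r) T) (hc : T.card = l.numLeaves + r.numLeaves) :
    ∃ T1 T2 : Finset α, T1 ∪ T2 = T ∧ Disjoint T1 T2 ∧ T1.card = l.numLeaves ∧
      T2.card = r.numLeaves ∧ z ∈ box (Ev p l T1) (Ev p r T2) := by
  obtain ⟨T1, T2, h1, h2, d, hb⟩ := split p l r T hz
  have h3 := Finset.card_le_card (Finset.union_subset h1 h2)
  have h4 := Finset.card_union_of_disjoint d
  have := cnt p _ _ _ (bl hb)
  have := cnt p _ _ _ (br hb)
  exact ⟨T1, T2, Finset.eq_of_subset_of_card_le (Finset.union_subset h1 h2) (by omega), d,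
    by omega, by omega, hb⟩

lemma one (g : G α) (s : BinaryTree Unit) : ∀ (T : Finset α), T.card = s.numLeaves → ∀ i ∈ T,
    Ev p s T ⊆ lift g (D (p i g)) := by
  induction s with
  | nil =>
    rintro T hT i hi z ⟨m, q, hm, h⟩
    obtain ⟨a, rfl⟩ := Finset.card_eq_one.1 hT
    have hi : i = a := by simpa using hi
    subst hi
    have : m = i ∧ p m = q := by simpa [cfg] using hm
    obtain ⟨rfl, rfl⟩ := this
    exact h g
  | node _ l r a b =>
    intro T hT i hi z hz
    obtain ⟨T1, T2, rfl, d, c1, c2, hb⟩ := split' p l r T hz hT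
    rcases Finset.mem_union.1 hi with hi | hi
    · exact a T1 c1 i hi (bl hb)
    · exact b T2 c2 i hi (br hb)

lemma two (g : G α) (s : BinaryTree Unit) : ∀ (T : Finset α), T.card = s.numLeaves → ∀ i ∈ T,
    ∀ k ∈ T, i ≠ k → Ev p s T ⊆ lift g (box (D (p i g)) (D (p k g))) := by
  induction s with
  | nil =>
    intro T hT i hi k hk hik
    obtain ⟨a, rfl⟩ := Finset.card_eq_one.1 hT
    simp only [Finset.mem_singleton] at hi hk
    exact absurd (hi.trans hk.symm) hik
  | node _ l r a b =>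
    intro T hT i hi k hk hik z hz
    obtain ⟨T1, T2, rfl, d, c1, c2, hb⟩ := split' p l r T hz hT
    rcases Finset.mem_union.1 hi with hi | hi <;> rcases Finset.mem_union.1 hk with hk | hk
    · exact a T1 c1 i hi k hk hik (bl hb)
    · exact box_lift _ _ _ (bmono (one p g l T1 c1 i hi) (one p g r T2 c2 k hk) hb)
    · rw [comm]; exact box_lift _ _ _ (bmono (one p g l T1 c1 k hk) (one p g r T2 c2 i hi) hb)
    · exact b T2 c2 i hi k hk hik (br hb)

lemma card_set (u : LT α) (hu : u.ok) : u.set.card = u.shape.numLeaves := by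
  induction u with
  | leaf a => simp [LT.set, LT.shape]
  | node l r a b =>
    rw [LT.set, Finset.card_union_of_disjoint hu.2.2, a hu.1, b hu.2.1]; rfl

lemma main (u : LT α) (hu : u.ok)
    (hp : ∀ i j k, u.R i j k → i ≠ j → p i (i, j, k) = 0 ∧ p j (i, j, k) = 1 ∧ p k (i, j, k) = 2) :
    ∀ s : BinaryTree Unit, (fun _ => none) ∈ Ev p s u.set → u.set.card = s.numLeaves → Eqv u.shape s := by
  induction u with
  | leaf a =>
    rintro (_ | ⟨_, l, r⟩) _ h
    · trivial
    · have := l.numLeaves_pos; have := r.numLeaves_pos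
      simp [LT.set] at h; omega
  | node l r a b =>
    have d := Finset.disjoint_left.1 hu.2.2
    rintro (_ | ⟨_, l', r'⟩) hz h
    · have := l.ne.card_pos; have := r.ne.card_pos
      rw [LT.set, Finset.card_union_of_disjoint hu.2.2] at h
      simp at h; omega
    obtain ⟨T1, T2, e, dT, c1, c2, hb⟩ := split' p l' r' _ hz h
    have key : ∀ (s1 s2 : BinaryTree Unit) (T1 T2 : Finset α), T1 ∪ T2 = l.set ∪ r.set → Disjoint T1 T2 →
        T1.card = s1.numLeaves → T2.card = s2.numLeaves →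
        (fun _ => none) ∈ box (Ev p s1 T1) (Ev p s2 T2) → T1 ⊆ l.set ∨ T1 ⊆ r.set := by
      intro s1 s2 T1 T2 e dT c1 c2 hb
      have no : ∀ i ∈ T1, ∀ k ∈ T1, ∀ j ∈ T2, ¬ (LT.node l r).R i j k := by
        intro i hi k hk j hj hR
        have hij : i ≠ j := fun e => Finset.disjoint_left.1 dT hi (e ▸ hj)
        obtain ⟨p1, p2, p3⟩ := hp i j k hR hij
        have := box_lift (i, j, k) _ _ (bmono (two p (i, j, k) s1 T1 c1 i hi k hk
          (R_mem _ hu hR).2.2.2.1.symm) (one p (i, j, k) s2 T2 c2 j hj) hb)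
        rw [p1, p2, p3] at this
        exact g2 (fun _ => 0) this
      by_contra hcon
      rw [not_or, Finset.not_subset, Finset.not_subset] at hcon
      obtain ⟨⟨k, hk, hk'⟩, i, hi, hi'⟩ := hcon
      have mem : ∀ m ∈ T1 ∪ T2, m ∈ l.set ∨ m ∈ r.set := fun m hm => Finset.mem_union.1 (e ▸ hm)
      have hk2 := (mem k (Finset.mem_union_left _ hk)).resolve_left hk'
      have hi2 := (mem i (Finset.mem_union_left _ hi)).resolve_right hi'
      obtain ⟨j, hj⟩ := Finset.card_pos.1 (c2 ▸ s2.numLeaves_pos)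
      rcases mem j (Finset.mem_union_right _ hj) with h | h
      · exact no i hi k hk j hj (.inl ⟨hi2, h, hk2⟩)
      · exact no k hk i hi j hj (.inr (.inl ⟨hk2, h, hi2⟩))
    have k1 := key l' r' T1 T2 e dT c1 c2 hb
    have k2 := key r' l' T2 T1 (by rw [Finset.union_comm]; exact e) dT.symm c2 c1 (by rwa [comm])
    have fin : ∀ {A B X Y : Finset α}, A ∪ B = X ∪ Y → Disjoint X Y → A ⊆ X → B ⊆ Y → A = X ∧ B = Y := by
      intro A B X Y e d h1 h2
      refine ⟨h1.antisymm fun m hm => ?_, h2.antisymm fun m hm => ?_⟩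
      · exact (Finset.mem_union.1 (e.symm ▸ Finset.mem_union_left _ hm)).resolve_right
          fun h => Finset.disjoint_left.1 d hm (h2 h)
      · exact (Finset.mem_union.1 (e.symm ▸ Finset.mem_union_right _ hm)).resolve_left
          fun h => Finset.disjoint_left.1 d (h1 h) hm
    have a' := a hu.1 fun i j k h => hp i j k (.inr (.inr (.inl h)))
    have b' := b hu.2.1 fun i j k h => hp i j k (.inr (.inr (.inr h)))
    have e' : T1 ∪ T2 = l.set ∪ r.set := e
    rcases k1 with k1 | k1 <;> rcases k2 with k2 | k2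
    · obtain ⟨m, hm⟩ := r.ne
      exact (d (Finset.union_subset k1 k2 (e'.symm ▸ Finset.mem_union_right _ hm)) hm).elim
    · obtain ⟨rfl, rfl⟩ := fin e' hu.2.2 k1 k2
      exact .inl ⟨a' _ (bl hb) c1, b' _ (br hb) c2⟩
    · obtain ⟨rfl, rfl⟩ := fin (e'.trans (Finset.union_comm _ _)) hu.2.2.symm k1 k2
      exact .inr ⟨a' _ (br hb) c2, b' _ (bl hb) c1⟩
    · obtain ⟨m, hm⟩ := l.ne
      exact (d hm (Finset.union_subset k1 k2 (e'.symm ▸ Finset.mem_union_left _ hm))).elim

theorem result (r : ℕ) (hr : 1 ≤ r) : ∃ (S : Type) (_ : Nonempty S) (d : ℕ) (A : Set (Fin d → S)), 1 ≤ d ∧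
    ∀ t s : BinaryTree Unit, t.numLeaves = r → s.numLeaves = r → ev A t = ev A s → Eqv t s := by
  classical
  haveI : Nonempty (Fin r) := ⟨⟨0, hr⟩⟩
  set e := (Fintype.equivFin (II (Fin r))).symm with he
  refine ⟨SS (Fin r), ⟨none⟩, _, {x | x ∘ e.symm ∈ AA (Fin r)}, Fintype.card_pos, fun t s ht hs h => ?_⟩
  rw [ev_equiv, ev_equiv] at h
  have h' : ev (AA (Fin r)) t ⊆ ev (AA (Fin r)) s := fun y hy => by
    have : y ∘ e ∈ {x : _ → SS (Fin r) | x ∘ e.symm ∈ ev (AA (Fin r)) t} := by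
      simpa [Function.comp_assoc] using hy
    rw [h] at this
    simpa [Function.comp_assoc] using this
  obtain ⟨u, hu, h1, rfl⟩ := exl t (Finset.univ : Finset (Fin r)) (by simp [ht])
  set p : Fin r → G (Fin r) → Fin 4 := fun m g => if u.R g.1 g.2.1 g.2.2 ∧ g.1 ≠ g.2.1 then
    (if m = g.1 then 0 else if m = g.2.1 then 1 else if m = g.2.2 then 2 else 3) else 3 with hp
  have hpp : ∀ i j k, u.R i j k → i ≠ j → p i (i, j, k) = 0 ∧ p j (i, j, k) = 1 ∧ p k (i, j, k) = 2 := by
    intro i j k hR hij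
    obtain ⟨-, -, -, q1, q2⟩ := R_mem u hu hR
    simp [hp, hR, hij, hij.symm, q1, q2]
  refine main p u hu hpp s (h' (lower p u hu (mem_iInter.2 ?_))) (by rw [h1]; simp [hs])
  rintro ⟨i, j, k⟩
  by_cases hR : u.R i j k ∧ i ≠ j
  · obtain ⟨q1, q2, q3⟩ := hpp i j k hR.1 hR.2
    rw [e3 _ u hu hR.1 hR.2 fun m _ a b c => by simp [hp, a, b, c, D], q1, q2, q3]
    exact g1
  · rw [e0 _ u fun m _ => by simp only [hp, if_neg hR]; rfl]
    trivial

end Pool.Agent.Results.MP_2d934b_pr.Yes
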